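import Pool.Agent.Helper82.CN.St

/-!
# CN, module OVC: permutations with prescribed images of disjoint sets
-/

set_option autoImplicit false

namespace Pool.Agent.Helper71.CN

open Finset Pool.Agent.Helper82.CN

open Classical in
theorem tOVC : StOvc := by
  intro n X _ _ B A hB
  set S : Finset (Equiv.Perm (Fin n)) := (univ : Finset (Equiv.Perm (Fin n))).filter
    (fun π : Equiv.Perm (Fin n) => ∀ x, (B x).image (fun v => π v) = A x) with hS
  rcases S.eq_empty_or_nonempty with h0 | ⟨π₀, hπ₀⟩
  · rw [h0]
    simp only [card_empty, Nat.cast_zero]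
    positivity
  -- the colouring
  set f : Fin n → Option X := fun v => if h : ∃ x, v ∈ B x then some h.choose else none with hf
  have hf1 : ∀ x v, f v = some x ↔ v ∈ B x := by
    intro x v
    constructor
    · intro h
      by_cases h1 : ∃ x, v ∈ B x
      · have h2 : f v = some h1.choose := by rw [hf]; exact dif_pos h1
        rw [h2] at h
        have h3 : h1.choose = x := Option.some_injective _ h
        rw [← h3]
        exact h1.choose_spec
      · have h2 : f v = none := by rw [hf]; exact dif_neg h1
        rw [h2] at h
        exact absurd h (by simp)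
    · intro h
      have h1 : ∃ x, v ∈ B x := ⟨x, h⟩
      have h2 : f v = some h1.choose := by rw [hf]; exact dif_pos h1
      rw [h2]
      congr 1
      by_contra hne
      exact (Finset.disjoint_left.1 (hB _ _ hne)) h1.choose_spec h
  have hmem : ∀ π : Equiv.Perm (Fin n), π ∈ S → ∀ x v, π v ∈ A x ↔ v ∈ B x := by
    intro π hπ x v
    rw [hS, mem_filter] at hπ
    rw [← hπ.2 x, mem_image]
    constructor
    · rintro ⟨w, hw, hwv⟩
      rwa [π.injective hwv] at hw
    · intro h
      exact ⟨v, h, rfl⟩
  have hinj : S.card ≤ Fintype.card {g : Equiv.Perm (Fin n) // f ∘ g = f} := by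
    rw [← Fintype.card_coe]
    refine Fintype.card_le_of_injective
      (fun π : S => (⟨π₀⁻¹ * π.1, ?_⟩ : {g : Equiv.Perm (Fin n) // f ∘ g = f})) ?_
    · funext v
      have key : ∀ x, f ((π₀⁻¹ * π.1) v) = some x ↔ f v = some x := by
        intro x
        rw [hf1, hf1, ← hmem π₀ hπ₀ x, ← hmem π.1 π.2 x v]
        simp
      show f ((π₀⁻¹ * π.1) v) = f v
      cases h : f v with
      | some x => exact (key x).2 h
      | none =>
        cases h' : f ((π₀⁻¹ * π.1) v) with
        | none => rfl
        | some x =>
          have := (key x).1 h'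
          rw [h] at this
          exact absurd this (by simp)
    · intro a b hab
      have h1 : π₀⁻¹ * a.1 = π₀⁻¹ * b.1 := congrArg Subtype.val hab
      exact Subtype.ext (mul_left_cancel h1)
  rw [DomMulAct.stabilizer_card, Fintype.prod_option] at hinj
  have hx : ∀ x, Fintype.card {a // f a = some x} = (B x).card := by
    intro x
    rw [← Fintype.card_coe]
    exact Fintype.card_congr (Equiv.subtypeEquivRight fun v => hf1 x v)
  have hn : Fintype.card {a // f a = none} = n - ∑ x, (B x).card := by
    have h1 : ∑ o : Option X, Fintype.card {a // f a = o} = n := by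
      have := Fintype.card_congr (Equiv.sigmaFiberEquiv f)
      rw [Fintype.card_sigma, Fintype.card_fin] at this
      exact this
    rw [Fintype.sum_option] at h1
    simp only [hx] at h1
    omega
  simp only [hx, hn] at hinj
  have h2 : (S.card : ℝ) ≤ (((n - ∑ x, (B x).card).factorial * ∏ x, (B x).card.factorial : ℕ) : ℝ) := by
    exact_mod_cast hinj
  refine h2.trans (le_of_eq ?_)
  push_cast
  ring

end Pool.Agent.Helper71.CN
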