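import Pool.Agent.Helper82.CN.St

/-!
# CN, module UPP: upper bound for the expected chromatic number
-/

set_option autoImplicit false

namespace Pool.Agent.Helper71.CN

open Finset Filter Pool.Agent.Helper82.CN

private lemma ga_eq_UPP (p x : ℝ) :
    ga p x = 2 / bb p * (Real.log x - Real.log (Real.log x / bb p) - Real.log 2) := by
  unfold ga al
  ring

private lemma ga_le_UPP (p x : ℝ) (hb : 0 < bb p) (hx : bb p ≤ Real.log x) :
    ga p x ≤ 2 / bb p * Real.log x := by
  rw [ga_eq_UPP]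
  have h1 : 0 ≤ Real.log (Real.log x / bb p) := Real.log_nonneg (by rwa [le_div_iff₀ hb, one_mul])
  have h2 : 0 ≤ Real.log 2 := Real.log_nonneg (by norm_num)
  have h3 : 0 < 2 / bb p := by positivity
  exact mul_le_mul_of_nonneg_left (by linarith) h3.le

private lemma ga_ge_UPP (p x : ℝ) (hb : 0 < bb p) (hx : bb p ≤ Real.log x) :
    1 / bb p * Real.log x + 2 / bb p * (1 + Real.log (bb p / 2) - Real.log 2) ≤ ga p x := by
  rw [ga_eq_UPP]
  have h0 : 0 < Real.log x / bb p := by
    have : 0 < Real.log x := lt_of_lt_of_le hb hx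
    positivity
  have h1 : Real.log (Real.log x / bb p) ≤ Real.log x / 2 - 1 - Real.log (bb p / 2) := by
    have h2 := Real.log_le_sub_one_of_pos (x := Real.log x / bb p * (bb p / 2)) (by positivity)
    rw [Real.log_mul h0.ne' (by positivity)] at h2
    have h3 : Real.log x / bb p * (bb p / 2) = Real.log x / 2 := by
      field_simp
    rw [h3] at h2
    linarith
  have h3 : 0 < 2 / bb p := by positivity
  have h4 : 2 / bb p * (Real.log x / 2 + (1 + Real.log (bb p / 2) - Real.log 2)) ≤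
      2 / bb p * (Real.log x - Real.log (Real.log x / bb p) - Real.log 2) :=
    mul_le_mul_of_nonneg_left (by linarith) h3.le
  refine le_trans (le_of_eq ?_) h4
  ring

private lemma log_sq_UPP (C a : ℝ) (ha : 0 < a) :
    ∀ᶠ n : ℕ in atTop, C * Real.log n ^ 2 ≤ (n : ℝ) ^ a := by
  have h1 : (fun x : ℝ => Real.log x) =o[atTop] fun x => x ^ (a / 2) :=
    isLittleO_log_rpow_atTop (by positivity)
  have hc : (0 : ℝ) < 1 / (|C| + 1) := by positivity
  have h2 := h1.bound hc
  have h3 := (tendsto_natCast_atTop_atTop (R := ℝ)).eventually h2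
  filter_upwards [h3, eventually_ge_atTop 1] with n hn hn1
  have hn1' : (1 : ℝ) ≤ n := by exact_mod_cast hn1
  have hpos : (0 : ℝ) < (n : ℝ) ^ (a / 2) := by positivity
  rw [Real.norm_eq_abs, Real.norm_eq_abs, abs_of_pos hpos] at hn
  have h4 : Real.log n ^ 2 ≤ (1 / (|C| + 1) * (n : ℝ) ^ (a / 2)) ^ 2 := by
    rw [← sq_abs (Real.log n)]
    exact pow_le_pow_left₀ (abs_nonneg _) hn 2
  have h5 : ((n : ℝ) ^ (a / 2)) ^ 2 = (n : ℝ) ^ a := by
    rw [← Real.rpow_natCast, ← Real.rpow_mul (by positivity)]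
    congr 1
    push_cast
    ring
  rw [mul_pow, h5] at h4
  have h6 : C ≤ |C| + 1 := by
    have := le_abs_self C
    linarith
  have h7 : 0 ≤ Real.log n ^ 2 := sq_nonneg _
  have h8 : (0 : ℝ) < (n : ℝ) ^ a := by positivity
  calc C * Real.log n ^ 2 ≤ (|C| + 1) * Real.log n ^ 2 := mul_le_mul_of_nonneg_right h6 h7
    _ ≤ (|C| + 1) * ((1 / (|C| + 1)) ^ 2 * (n : ℝ) ^ a) :=
        mul_le_mul_of_nonneg_left h4 (by positivity)
    _ = 1 / (|C| + 1) * (n : ℝ) ^ a := by
        field_simp
    _ ≤ 1 * (n : ℝ) ^ a := by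
        refine mul_le_mul_of_nonneg_right ?_ h8.le
        rw [div_le_one (by positivity)]
        have := abs_nonneg C
        linarith
    _ = (n : ℝ) ^ a := one_mul _

open Classical in
theorem tUPP (hScm : StScm) (hOva : StOva) (hTmb : StTmb) (hMcd : StMcd) : StUpp := by
  intro p ε hp0 hp1 hε
  have hp1' : p < 1 := by
    have : 0 < 1 / Real.exp 2 := by positivity
    linarith
  have hb : 0 < bb p := by
    unfold bb
    refine Real.log_pos ?_
    rw [lt_div_iff₀ (by linarith)]
    linarith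
  set ε₁ : ℝ := min ε 1 / 4 with hε₁
  have e1 : 0 < ε₁ := by
    have : 0 < min ε 1 := lt_min hε one_pos
    positivity
  have e2 : ε₁ ≤ 1 / 4 := by
    have := min_le_right ε 1
    linarith
  have e3 : 4 * ε₁ ≤ ε := by
    have := min_le_left ε 1
    linarith
  obtain ⟨δ, hδ0, hδ1, n1, hT⟩ := hTmb p ε₁ hp0 hp1 e1 (by linarith)
  set Cc : ℝ := 2 / bb p with hCc
  have hCpos : 0 < Cc := by positivity
  -- eventual conditions
  have E0 : ∀ᶠ n : ℕ in atTop, bb p ≤ Real.log n :=
    (Real.tendsto_log_atTop.comp (tendsto_natCast_atTop_atTop (R := ℝ))).eventually_ge_atTop _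
  have E1 : ∀ᶠ n : ℕ in atTop, ε + 3 ≤ ga p n := by
    have h1 : Tendsto (fun n : ℕ => 1 / bb p * Real.log n +
        2 / bb p * (1 + Real.log (bb p / 2) - Real.log 2)) atTop atTop :=
      tendsto_atTop_add_const_right _ _ (Tendsto.const_mul_atTop (by positivity)
        (Real.tendsto_log_atTop.comp (tendsto_natCast_atTop_atTop (R := ℝ))))
    filter_upwards [h1.eventually_ge_atTop (ε + 3), E0] with n hn hn0
    exact hn.trans (ga_ge_UPP p n hb hn0)
  have E2 := log_sq_UPP (Cc ^ 2 / ε₁) 1 one_pos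
  have E3 := log_sq_UPP (2 * Cc) (1 - δ) (by linarith)
  have E4 := log_sq_UPP (4 * Cc ^ 2 / ε) (δ / 2) (by linarith)
  have key : ∀ᶠ n : ℕ in atTop, 0 < ga p n - ε ∧ fn p n ≤ (n : ℝ) / (ga p n - ε) := by
    filter_upwards [E0, E1, E2, E3, E4, eventually_ge_atTop n1, eventually_ge_atTop 2] with
      n h0 h1 h2 h3 h4 hn1 hn2
    have hn2' : (2 : ℝ) ≤ n := by exact_mod_cast hn2
    have hnpos : (0 : ℝ) < n := by linarith
    set G : ℝ := ga p n with hG
    have hGle : G ≤ Cc * Real.log n := ga_le_UPP p n hb h0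
    have hGpos : 0 < G := by linarith
    have hG2 : G ^ 2 ≤ Cc ^ 2 * Real.log n ^ 2 := by
      rw [← mul_pow]
      exact pow_le_pow_left₀ hGpos.le hGle 2
    have hGn : G ^ 2 ≤ n * ε₁ := by
      rw [Real.rpow_one, div_mul_eq_mul_div, div_le_iff₀ e1] at h2
      linarith
    have hGd : 4 * G ^ 2 ≤ (n : ℝ) ^ (δ / 2) * ε := by
      rw [div_mul_eq_mul_div, div_le_iff₀ hε] at h4
      linarith
    refine ⟨by linarith, ?_⟩
    -- the choice of k
    set k : ℕ := ⌈(n : ℝ) / (G - ε₁)⌉₊ with hk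
    have d1 : 0 < G - ε₁ := by linarith
    have d2 : 1 ≤ G - 2 * ε₁ := by linarith
    have d2' : 0 < G - 2 * ε₁ := by linarith
    have d3 : 0 < G - ε := by linarith
    have hk1 : (n : ℝ) / (G - ε₁) ≤ k := Nat.le_ceil _
    have hk2 : (k : ℝ) < (n : ℝ) / (G - ε₁) + 1 := Nat.ceil_lt_add_one (by positivity)
    have hk3 : (n : ℝ) / (G - ε₁) + 1 ≤ n / (G - 2 * ε₁) := by
      rw [div_add_one d1.ne', div_le_div_iff₀ d1 d2']
      have r1 : (G - ε₁) * (G - 2 * ε₁) ≤ G ^ 2 := by
        rw [sq]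
        exact mul_le_mul (by linarith) (by linarith) d2'.le hGpos.le
      have r2 : ((n : ℝ) + (G - ε₁)) * (G - 2 * ε₁) =
          n * (G - ε₁) - n * ε₁ + (G - ε₁) * (G - 2 * ε₁) := by ring
      rw [r2]
      linarith
    have hk4 : (k : ℝ) ≤ n / (G - 2 * ε₁) := by linarith
    have hkpos : 1 ≤ k := by
      rw [hk, Nat.one_le_ceil_iff]
      positivity
    have hkpos' : (0 : ℝ) < k := by exact_mod_cast hkpos
    have hkn : k ≤ n := by
      have : (k : ℝ) ≤ n := hk4.trans (div_le_self hnpos.le d2)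
      exact_mod_cast this
    have hhigh : (n : ℝ) / k ≤ G - ε₁ := by
      rw [div_le_iff₀ d1] at hk1
      rw [div_le_iff₀ hkpos']
      linarith
    have hlow : G - 2 * ε₁ ≤ (n : ℝ) / k := by
      rw [le_div_iff₀ d2'] at hk4
      rw [le_div_iff₀ hkpos']
      linarith
    -- second moment
    set Y : ℝ := Real.exp ((n : ℝ) ^ (1 - δ)) with hY
    have hAA : AA p n k ≤ ((n : ℝ) + 1) ^ (n / k) * Y :=
      hOva p n k Y hp0.le hp1' hkpos hkn (Real.exp_pos _).le
        (fun m hm1 hm2 => hT n k m hn1 hkpos hlow hhigh hm1 hm2)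
    have hpow : ((n : ℝ) + 1) ^ (n / k) ≤ Y := by
      have t1 : ((n / k : ℕ) : ℝ) ≤ G := by
        have := Nat.cast_div_le (α := ℝ) (m := n) (n := k)
        linarith
      have t2 : ((n : ℝ) + 1) ^ (n / k) = Real.exp (((n / k : ℕ) : ℝ) * Real.log (n + 1)) := by
        rw [mul_comm, Real.exp_mul, Real.exp_log (by positivity), Real.rpow_natCast]
      have t3 : Real.log ((n : ℝ) + 1) ≤ 2 * Real.log n := by
        have t4 : (n : ℝ) + 1 ≤ (n : ℝ) ^ 2 := by nlinarith
        calc Real.log ((n : ℝ) + 1) ≤ Real.log ((n : ℝ) ^ 2) := Real.log_le_log (by positivity) t4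
          _ = 2 * Real.log n := by
            rw [Real.log_pow]
            push_cast
            ring
      have t5 : 0 ≤ Real.log ((n : ℝ) + 1) := Real.log_nonneg (by linarith)
      have t6 : 0 ≤ Real.log (n : ℝ) := Real.log_nonneg (by linarith)
      rw [t2, hY]
      refine Real.exp_le_exp.2 ?_
      calc ((n / k : ℕ) : ℝ) * Real.log (n + 1) ≤ G * Real.log (n + 1) :=
            mul_le_mul_of_nonneg_right t1 t5
        _ ≤ G * (2 * Real.log n) := mul_le_mul_of_nonneg_left t3 hGpos.le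
        _ ≤ (Cc * Real.log n) * (2 * Real.log n) :=
            mul_le_mul_of_nonneg_right hGle (by positivity)
        _ = 2 * Cc * Real.log n ^ 2 := by ring
        _ ≤ _ := h3
    set P : ℝ := EE p (fun ω : Sym2 (Fin n) → Bool => if ch (gr ω) ≤ k then (1 : ℝ) else 0) with hP
    have hP0 : 0 ≤ P := EE_nonneg hp0.le hp1'.le (fun ω => by split_ifs <;> norm_num)
    have hYpos : 0 < Y := Real.exp_pos _
    have hPY : 1 ≤ Y * Y * P := by
      have s1 := hScm p n k hp0.le hp1' hkpos hkn
      have s2 : AA p n k ≤ Y * Y := hAA.trans (mul_le_mul_of_nonneg_right hpow hYpos.le)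
      exact s1.trans (mul_le_mul_of_nonneg_right s2 hP0)
    rcases le_or_gt (fn p n) k with hf | hf
    · refine hf.trans (hk4.trans ?_)
      exact div_le_div_of_nonneg_left hnpos.le d3 (by linarith)
    · set s : ℝ := fn p n - k with hs
      have hspos : 0 < s := by linarith
      have hM := (hMcd p n s hp0.le hp1'.le (by omega) hspos.le).2
      have hsk : fn p n - s = k := by rw [hs]; ring
      rw [hsk] at hM
      have hM' : P ≤ Real.exp (-(s ^ 2 / (2 * n))) := hM
      have h5 : 1 ≤ Real.exp ((n : ℝ) ^ (1 - δ) + (n : ℝ) ^ (1 - δ) + -(s ^ 2 / (2 * n))) := by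
        rw [Real.exp_add, Real.exp_add]
        exact hPY.trans (mul_le_mul_of_nonneg_left hM' (by positivity))
      rw [Real.one_le_exp_iff] at h5
      have h6 : s ^ 2 ≤ 4 * (n * (n : ℝ) ^ (1 - δ)) := by
        have : s ^ 2 / (2 * n) ≤ 2 * (n : ℝ) ^ (1 - δ) := by linarith
        rw [div_le_iff₀ (by positivity)] at this
        linarith
      set w : ℝ := (n : ℝ) ^ (1 - δ / 2) with hw
      have hwpos : 0 < w := by positivity
      have hw2 : w ^ 2 = n * (n : ℝ) ^ (1 - δ) := by
        rw [hw, ← Real.rpow_natCast, ← Real.rpow_mul hnpos.le]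
        nth_rewrite 2 [← Real.rpow_one (n : ℝ)]
        rw [← Real.rpow_add hnpos]
        congr 1
        push_cast
        ring
      have hsw : s ≤ 2 * w := by
        by_contra hcon
        push Not at hcon
        have r3 : (2 * w) ^ 2 < s ^ 2 := pow_lt_pow_left₀ hcon (by positivity) two_ne_zero
        rw [mul_pow, hw2] at r3
        linarith
      have hnw : (n : ℝ) = w * (n : ℝ) ^ (δ / 2) := by
        rw [hw, ← Real.rpow_add hnpos]
        have : (1 - δ / 2 + δ / 2 : ℝ) = 1 := by ring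
        rw [this, Real.rpow_one]
      have hfin : (n : ℝ) / (G - 2 * ε₁) + 2 * w ≤ n / (G - ε) := by
        rw [div_add' _ _ _ d2'.ne', div_le_div_iff₀ d2' d3]
        have q1 : 2 * w * ((G - 2 * ε₁) * (G - ε)) ≤ 2 * w * G ^ 2 := by
          refine mul_le_mul_of_nonneg_left ?_ (by positivity)
          rw [sq]
          exact mul_le_mul (by linarith) (by linarith) d3.le hGpos.le
        have q2 : w * (4 * G ^ 2) ≤ n * ε := by
          calc w * (4 * G ^ 2) ≤ w * ((n : ℝ) ^ (δ / 2) * ε) :=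
                mul_le_mul_of_nonneg_left hGd hwpos.le
            _ = (w * (n : ℝ) ^ (δ / 2)) * ε := by ring
            _ = n * ε := by rw [← hnw]
        have q3 : (n : ℝ) * (4 * ε₁) ≤ n * ε := mul_le_mul_of_nonneg_left e3 hnpos.le
        have q4 : ((n : ℝ) + 2 * w * (G - 2 * ε₁)) * (G - ε) =
            n * G - n * ε + 2 * w * ((G - 2 * ε₁) * (G - ε)) := by ring
        have q5 : (n : ℝ) * (G - 2 * ε₁) = n * G - (n * (4 * ε₁)) / 2 := by ring
        rw [q4, q5]
        linarith
      calc fn p n = k + s := by rw [hs]; ring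
        _ ≤ n / (G - 2 * ε₁) + 2 * w := by linarith
        _ ≤ _ := hfin
  exact eventually_atTop.1 key

end Pool.Agent.Helper71.CN
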